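import Pool.Agent.Helper70_PDS.Stmts

/-!
Squad PDS (MP_afe9e9_co): DRAW and ADD.
-/

set_option autoImplicit false

namespace PDS.H18

open PDS

section draw

variable {V : Type} {G : SimpleGraph V}

lemma key (B : Book G) {a b c d : V} (h1 : G.Adj a b) (h2 : G.Adj c d)
    (hup : B.up a b ↔ B.up c d) {x : ℝ} (hx1 : B.pos a < x) (hx2 : x < B.pos b)
    (hx3 : B.pos c < x) (hx4 : x < B.pos d)
    (he : (x - B.pos a) * (B.pos b - x) = (x - B.pos c) * (B.pos d - x)) : a = c ∧ b = d := by
  rcases lt_trichotomy (B.pos a) (B.pos c) with h | h | h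
  · exfalso
    rcases lt_or_ge (B.pos b) (B.pos d) with h' | h'
    · exact B.nc a b c d h1 h2 hup h (hx3.trans hx2) h'
    · have e1 : (x - B.pos c) * (B.pos d - x) ≤ (x - B.pos c) * (B.pos b - x) :=
        mul_le_mul_of_nonneg_left (by linarith) (by linarith)
      have e2 : (x - B.pos c) * (B.pos b - x) < (x - B.pos a) * (B.pos b - x) :=
        mul_lt_mul_of_pos_right (by linarith) (by linarith)
      linarith
  · refine ⟨B.inj h, B.inj ?_⟩
    rw [h] at he
    have hne : x - B.pos c ≠ 0 := (sub_pos.mpr hx3).ne'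
    have := mul_left_cancel₀ hne he
    linarith
  · exfalso
    rcases lt_or_ge (B.pos d) (B.pos b) with h' | h'
    · exact B.nc c d a b h2 h1 hup.symm h (hx1.trans hx4) h'
    · have e1 : (x - B.pos a) * (B.pos b - x) ≤ (x - B.pos a) * (B.pos d - x) :=
        mul_le_mul_of_nonneg_left (by linarith) (by linarith)
      have e2 : (x - B.pos a) * (B.pos d - x) < (x - B.pos c) * (B.pos d - x) :=
        mul_lt_mul_of_pos_right (by linarith) (by linarith)
      linarith

open Classical in
/-- the sign of the page -/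
noncomputable def sg (B : Book G) (u v : V) : ℝ := if B.up u v then 1 else -1

/-- the arc -/
noncomputable def arc (B : Book G) (u v : V) (t : ℝ) : ℝ × ℝ :=
  (B.pos u + t * (B.pos v - B.pos u), sg B u v * (t * (1 - t) * (B.pos v - B.pos u) ^ 2))

lemma sg_ne (B : Book G) (u v : V) : sg B u v ≠ 0 := by
  unfold sg
  split_ifs <;> norm_num

lemma sg_eq {B : Book G} {u v u' v' : V} (h : 0 < sg B u v * sg B u' v') :
    B.up u v ↔ B.up u' v' := by
  unfold sg at h
  split_ifs at h with h1 h2 h2
  · exact ⟨fun _ => h2, fun _ => h1⟩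
  · norm_num at h
  · norm_num at h
  · exact ⟨fun h => (h1 h).elim, fun h => (h2 h).elim⟩

lemma up_comm (B : Book G) (u v : V) : B.up u v ↔ B.up v u := ⟨B.symm u v, B.symm v u⟩

/-- DRAW -/
theorem draw : DrawStmt := by
  rintro V G ⟨B⟩
  have hne : ∀ u v, G.Adj u v → B.pos u ≠ B.pos v := fun u v h h' => h.ne (B.inj h')
  refine ⟨⟨fun v => (B.pos v, 0), arc B, ?_, ?_, ?_, ?_, ?_, ?_, ?_⟩⟩
  · intro u v h
    exact B.inj (congrArg Prod.fst h)
  · intro u v _
    unfold arc
    fun_prop
  · intro u v h t _ t' _ htt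
    have h1 := congrArg Prod.fst htt
    simp only [arc] at h1
    have h2 : B.pos v - B.pos u ≠ 0 := sub_ne_zero.mpr (hne u v h).symm
    have h3 : t * (B.pos v - B.pos u) = t' * (B.pos v - B.pos u) := by linarith
    exact mul_right_cancel₀ h2 h3
  · intro u v _
    simp [arc]
  · intro u v _
    simp [arc]
  · intro u v w h t ht0 ht1 htw
    have h1 := congrArg Prod.snd htw
    simp only [arc] at h1
    have h2 : B.pos v - B.pos u ≠ 0 := sub_ne_zero.mpr (hne u v h).symm
    have h3 : t * (1 - t) * (B.pos v - B.pos u) ^ 2 ≠ 0 :=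
      mul_ne_zero (mul_ne_zero ht0.ne' (by linarith : (0:ℝ) < 1 - t).ne') (pow_ne_zero 2 h2)
    exact mul_ne_zero (sg_ne B u v) h3 h1
  · intro u v u' v' h h' hs t t' ht0 ht1 ht0' ht1' he
    have e1 := congrArg Prod.fst he
    have e2 := congrArg Prod.snd he
    simp only [arc] at e1 e2
    have p1 : 0 < t * (1 - t) * (B.pos v - B.pos u) ^ 2 :=
      mul_pos (mul_pos ht0 (by linarith)) (sq_pos_of_ne_zero (sub_ne_zero.mpr (hne u v h).symm))
    have p2 : 0 < t' * (1 - t') * (B.pos v' - B.pos u') ^ 2 :=
      mul_pos (mul_pos ht0' (by linarith)) (sq_pos_of_ne_zero (sub_ne_zero.mpr (hne u' v' h').symm))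
    have e3 := congrArg (fun z => z * sg B u' v') e2
    have q1 : sg B u' v' * sg B u' v' = 1 := by
      unfold sg
      split_ifs <;> norm_num
    have hpos : 0 < sg B u v * sg B u' v' := by
      have e4 : sg B u v * sg B u' v' * (t * (1 - t) * (B.pos v - B.pos u) ^ 2)
          = t' * (1 - t') * (B.pos v' - B.pos u') ^ 2 := by
        linear_combination e3 + (t' * (1 - t') * (B.pos v' - B.pos u') ^ 2) * q1
      by_contra hc
      have := mul_nonpos_of_nonpos_of_nonneg (not_lt.mp hc) p1.le
      linarith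
    have hup := sg_eq hpos
    have hsg : sg B u v = sg B u' v' := by
      unfold sg
      by_cases hh : B.up u v
      · rw [if_pos hh, if_pos (hup.mp hh)]
      · rw [if_neg hh, if_neg (fun h => hh (hup.mpr h))]
    rw [hsg] at e2
    have e5 := mul_left_cancel₀ (sg_ne B u' v') e2
    set x : ℝ := B.pos u + t * (B.pos v - B.pos u) with hx
    have f1 : (x - B.pos u) * (B.pos v - x) = (x - B.pos u') * (B.pos v' - x) := by
      have g1 : (x - B.pos u) * (B.pos v - x) = t * (1 - t) * (B.pos v - B.pos u) ^ 2 := by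
        rw [hx]; ring
      have g2 : (x - B.pos u') * (B.pos v' - x) = t' * (1 - t') * (B.pos v' - B.pos u') ^ 2 := by
        rw [e1]; ring
      rw [g1, g2, e5]
    have b1 : B.pos u < B.pos v → B.pos u < x ∧ x < B.pos v := by
      intro hh
      constructor
      · have := mul_pos ht0 (sub_pos.mpr hh)
        rw [hx]; linarith
      · have := mul_pos (sub_pos.mpr ht1) (sub_pos.mpr hh)
        rw [hx]; linarith
    have b2 : B.pos v < B.pos u → B.pos v < x ∧ x < B.pos u := by
      intro hh
      constructor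
      · have := mul_pos (sub_pos.mpr ht1) (sub_pos.mpr hh)
        rw [hx]; linarith
      · have := mul_pos ht0 (sub_pos.mpr hh)
        rw [hx]; linarith
    have b3 : B.pos u' < B.pos v' → B.pos u' < x ∧ x < B.pos v' := by
      intro hh
      constructor
      · have := mul_pos ht0' (sub_pos.mpr hh)
        rw [e1]; linarith
      · have := mul_pos (sub_pos.mpr ht1') (sub_pos.mpr hh)
        rw [e1]; linarith
    have b4 : B.pos v' < B.pos u' → B.pos v' < x ∧ x < B.pos u' := by
      intro hh
      constructor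
      · have := mul_pos (sub_pos.mpr ht1') (sub_pos.mpr hh)
        rw [e1]; linarith
      · have := mul_pos ht0' (sub_pos.mpr hh)
        rw [e1]; linarith
    clear_value x
    rcases lt_or_gt_of_ne (hne u v h) with o1 | o1 <;>
      rcases lt_or_gt_of_ne (hne u' v' h') with o2 | o2
    · obtain ⟨c1, c2⟩ := key B h h' hup (b1 o1).1 (b1 o1).2 (b3 o2).1 (b3 o2).2 f1
      exact hs (by rw [c1, c2])
    · obtain ⟨c1, c2⟩ := key B h h'.symm (hup.trans (up_comm B u' v')) (b1 o1).1 (b1 o1).2
        (b4 o2).1 (b4 o2).2 (by linarith)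
      exact hs (by rw [c1, c2, Sym2.eq_swap])
    · obtain ⟨c1, c2⟩ := key B h.symm h' ((up_comm B v u).trans hup) (b2 o1).1 (b2 o1).2
        (b3 o2).1 (b3 o2).2 (by linarith)
      exact hs (by rw [c1, c2, Sym2.eq_swap])
    · obtain ⟨c1, c2⟩ := key B h.symm h'.symm
        ((up_comm B v u).trans (hup.trans (up_comm B u' v'))) (b2 o1).1 (b2 o1).2
        (b4 o2).1 (b4 o2).2 (by linarith)
      exact hs (by rw [c1, c2])

end draw

section add

variable {V W : Type} (G : SimpleGraph V) (H : SimpleGraph W)

/-- disjoint union -/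
def un : SimpleGraph (V ⊕ W) where
  Adj a b := match a, b with
    | Sum.inl a, Sum.inl b => G.Adj a b
    | Sum.inr a, Sum.inr b => H.Adj a b
    | _, _ => False
  symm := ⟨by
    rintro (a | a) (b | b) h
    · exact G.adj_symm h
    · exact h
    · exact h
    · exact H.adj_symm h⟩
  loopless := ⟨by
    rintro (a | a) h
    · exact G.irrefl h
    · exact H.irrefl h⟩

lemma dg_inl (v : V) : dg (un G H) (Sum.inl v) = dg G v := by
  unfold dg
  have : (un G H).neighborSet (Sum.inl v) = Sum.inl '' (G.neighborSet v) := by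
    ext (b | b)
    · simp [un, SimpleGraph.neighborSet]
    · simp [un, SimpleGraph.neighborSet]
  rw [this, Set.ncard_image_of_injective _ Sum.inl_injective]

lemma dg_inr (w : W) : dg (un G H) (Sum.inr w) = dg H w := by
  unfold dg
  have : (un G H).neighborSet (Sum.inr w) = Sum.inr '' (H.neighborSet w) := by
    ext (b | b)
    · simp [un, SimpleGraph.neighborSet]
    · simp [un, SimpleGraph.neighborSet]
  rw [this, Set.ncard_image_of_injective _ Sum.inr_injective]

lemma exists_bound {V : Type} [Fintype V] (f : V → ℝ) : ∃ M : ℝ, 0 < M ∧ ∀ v, |f v| < M := by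
  obtain ⟨M, hM⟩ := (Set.finite_range fun v => |f v|).bddAbove
  refine ⟨|M| + 1, by positivity, fun v => ?_⟩
  have := hM (Set.mem_range_self v)
  have h2 := le_abs_self M
  have h3 : |f v| ≤ M := this
  linarith

/-- ADD -/
theorem add : AddStmt := by
  rintro D E ⟨V, fV, G, ⟨B⟩, hD⟩ ⟨W, fW, H, ⟨C⟩, hE⟩
  obtain ⟨M, hM, hV⟩ := exists_bound B.pos
  obtain ⟨N, hN, hW⟩ := exists_bound C.pos
  have hlt : ∀ v w, B.pos v < C.pos w + (M + N) := by
    intro v w
    have h1 := (abs_lt.mp (hV v)).2
    have h2 := (abs_lt.mp (hW w)).1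
    linarith
  refine ⟨V ⊕ W, inferInstance, un G H, ⟨⟨Sum.elim B.pos fun w => C.pos w + (M + N),
    fun a b => match a, b with
      | Sum.inl a, Sum.inl b => B.up a b
      | Sum.inr a, Sum.inr b => C.up a b
      | _, _ => False, ?_, ?_, ?_⟩⟩, ?_⟩
  · rintro (a | a) (b | b) h
    · exact congrArg Sum.inl (B.inj h)
    · exact absurd h (hlt a b).ne
    · exact absurd h (hlt b a).ne'
    · refine congrArg Sum.inr (C.inj ?_)
      simp only [Sum.elim_inr] at h
      linarith
  · rintro (a | a) (b | b) h
    · exact B.symm a b h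
    · exact h
    · exact h
    · exact C.symm a b h
  · rintro (a | a) (b | b) (c | c) (d | d) h1 h2 hup p1 p2 p3
    all_goals first
      | exact h1.elim
      | exact h2.elim
      | exact B.nc a b c d h1 h2 hup p1 p2 p3
      | exact absurd p2 (not_lt.mpr (hlt b c).le)
      | exact absurd p1 (not_lt.mpr (hlt c a).le)
      | (simp only [Sum.elim_inr] at p1 p2 p3
         exact C.nc a b c d h1 h2 hup (by linarith) (by linarith) (by linarith))
  · rw [← hD, ← hE]
    have : (Finset.univ : Finset (V ⊕ W)).val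
        = (Finset.univ : Finset V).val.map Sum.inl + (Finset.univ : Finset W).val.map Sum.inr := by
      rw [← Finset.univ_disjSum_univ]
      rfl
    rw [this, Multiset.map_add, Multiset.map_map, Multiset.map_map]
    congr 1
    · exact Multiset.map_congr rfl fun v _ => dg_inl G H v
    · exact Multiset.map_congr rfl fun v _ => dg_inr G H v

end add

end PDS.H18
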